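import Pool.Agent.Y157.PS.GeoC
import Pool.Agent.Y157.PS.Stm4

/-!
# Roots of the functions `(x - e) / (x - e')` in the maximal geometrically pro-`ℓ` extension

(helper574, for project PS2 of helper157.)
-/

set_option autoImplicit false
set_option linter.all false

open Polynomial FF

namespace Pool.Agent.Y574.PS

open Pool.Agent.Y157.PS

section places

variable {ℓ : ℕ} {κ R M : Type} [Field κ] [Field R] [Field M] [Algebra κ R] [Algebra R M]
  [Algebra κ M] [IsScalarTower κ R M] {x : R} {B : Finset κ} {Y : M}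

/-- at a pole of `x`, all the functions `x - e` have the same order as `x` -/
theorem ord_pole {W : Place κ M} {X : M} (h : W.ord X = -1) (e : κ) :
    W.ord (X - algebraMap κ M e) = -1 := by
  have hX : X ≠ 0 := by
    rintro rfl
    rw [W.ord_zero] at h
    omega
  by_cases he : e = 0
  · rw [he, map_zero, sub_zero, h]
  · have h1 : algebraMap κ M (-e) ≠ 0 := by
      rw [_root_.map_ne_zero]
      exact neg_ne_zero.2 he
    have h2 : X - algebraMap κ M e = X + algebraMap κ M (-e) := by
      rw [map_neg, sub_eq_add_neg]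
    rw [h2, (W.ord_add_eq hX h1 (by rw [W.ord_const (neg_ne_zero.2 he), h]; omega)).2, h]

/-- the order of `(x - e) / (x - e')` is divisible by `ℓ` at all places -/
theorem dvd_ord (hC : Cov ℓ κ R M x B Y) (W : Place κ M) {e : κ} (he : e ∈ B) :
    (ℓ : ℤ) ∣ W.ord (algebraMap R M x - algebraMap κ M e) ∨
      W.ord (algebraMap R M x) = -1 := by
  rcases hC.loc' W with ⟨a, ha, h1, -⟩ | ⟨a, ha, h1⟩ | h1
  · left
    by_cases hae : a = e
    · rw [← hae, h1]
    · have h2 : 0 < W.ord (algebraMap R M x - algebraMap κ M a) ∨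
          W.ord (algebraMap R M x - algebraMap κ M a) = 0 := by
        rw [h1]; omega
      rcases h2 with h2 | h2
      · rw [ord_sub_const h2 hae]
        exact dvd_zero _
      · exfalso
        have h3 : (ℓ : ℤ) = 0 := by rw [← h1, h2]
        have h4 : ℓ = 0 := by exact_mod_cast h3
        have h5 := hC.dvd
        rw [h4, zero_dvd_iff] at h5
        have h6 := hC.three
        omega
  · left
    have hae : a ≠ e := fun h => ha (h ▸ he)
    rw [ord_sub_const (by rw [h1]; omega) hae]
    exact dvd_zero _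
  · right
    exact h1

theorem root_div (hC : Cov ℓ κ R M x B Y) {e e' : κ} (he : e ∈ B) (he' : e' ∈ B) :
    ∃ h : M, h ^ ℓ = (algebraMap R M x - algebraMap κ M e) /
      (algebraMap R M x - algebraMap κ M e') := by
  have hne : ∀ a : κ, algebraMap R M x - algebraMap κ M a ≠ 0 := by
    intro a h
    have h1 : Transcendental κ (algebraMap R M x) := by
      rw [transcendental_algebraMap_iff (algebraMap R M).injective]
      exact hC.rat.trans
    refine h1 ?_
    rw [sub_eq_zero.1 h]
    exact isAlgebraic_algebraMap a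
  refine hC.root _ (div_ne_zero (hne e) (hne e')) fun W => ?_
  rw [W.ord_div (hne e) (hne e')]
  rcases dvd_ord hC W he with h1 | h1
  · rcases dvd_ord hC W he' with h2 | h2
    · exact dvd_sub h1 h2
    · rw [ord_pole h2, ord_pole h2, sub_self]
      exact dvd_zero _
  · rw [ord_pole h1, ord_pole h1, sub_self]
    exact dvd_zero _

end places

section absI

variable {κ R F Ω : Type} [Field κ] [IsAlgClosed κ] [CharZero κ]
    [Field R] [Field F] [Field Ω] [Algebra κ R] [Algebra R Ω] [Algebra κ Ω]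
    [IsScalarTower κ R Ω] [IsAlgClosure R Ω] [Algebra F Ω]

theorem rtsI (hCOV : S_COV) {ℓ : ℕ} [Fact ℓ.Prime]
    (x' : R) (hrat : RatF κ x') (B : Finset κ) (hdvd : ℓ ∣ B.card) (h3 : 3 ≤ B.card)
    (Y0 : Ω) (hY : Y0 ^ ℓ = ∏ e ∈ B, (algebraMap R Ω x' - algebraMap κ Ω e))
    (N : IntermediateField F Ω)
    (hN : ∀ z, z ∈ maxPro ℓ κ (IntermediateField.adjoin R {Y0}) Ω ↔ z ∈ N)
    {e e' : κ} (he : e ∈ B) (he' : e' ∈ B) :
    ∃ h : N, (h : Ω) ^ ℓ = (algebraMap R Ω x' - algebraMap κ Ω e) /
      (algebraMap R Ω x' - algebraMap κ Ω e') := by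
  obtain ⟨M, hM⟩ : ∃ M : IntermediateField R Ω,
      ∀ z, z ∈ M ↔ z ∈ maxPro ℓ κ (IntermediateField.adjoin R {Y0}) Ω :=
    ⟨(maxPro ℓ κ (IntermediateField.adjoin R {Y0}) Ω).restrictScalars R, fun z => Iff.rfl⟩
  have hYM : Y0 ∈ M := by
    rw [hM]
    exact (maxPro ℓ κ (IntermediateField.adjoin R {Y0}) Ω).algebraMap_mem
      ⟨Y0, IntermediateField.mem_adjoin_simple_self _ _⟩
  have hCov : Cov ℓ κ R M x' B ⟨Y0, hYM⟩ :=
    hCOV ℓ κ R Ω x' hrat B hdvd h3 Y0 hY M hM ⟨Y0, hYM⟩ rfl
  obtain ⟨h, hh⟩ := root_div hCov he he'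
  refine ⟨⟨h.1, (hN _).1 ((hM _).1 h.2)⟩, ?_⟩
  have h1 := congrArg (algebraMap M Ω) hh
  rw [map_pow, map_div₀, map_sub, map_sub] at h1
  exact h1

end absI

section main

theorem rts (hCOV : S_COV) : S_RTS := by
  intro ℓ hℓ k F Ω _ _ _ _ _ _ _ _ _ _ f hsep hdvd h3 d hd0 x y hx hxy hF e e' he he'
  classical
  have hℓp : ℓ.Prime := Fact.out
  have hac : IsAlgClosure k (algebraicClosure k Ω) := inferInstance
  have hkb : IsAlgClosed (algebraicClosure k Ω) := hac.1
  have hch : CharZero (algebraicClosure k Ω) :=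
    charZero_of_injective_algebraMap (algebraMap k (algebraicClosure k Ω)).injective
  have hf0 : f ≠ 0 := hsep.ne_zero
  have hlck0 : f.leadingCoeff ≠ 0 := leadingCoeff_ne_zero.2 hf0
  obtain ⟨δ, hδ⟩ : ∃ δ : algebraicClosure k Ω, δ ^ ℓ =
      algebraMap k (algebraicClosure k Ω) (d / f.leadingCoeff) :=
    IsAlgClosed.exists_pow_nat_eq _ hℓp.pos
  have hδ0 : δ ≠ 0 := by
    rintro rfl
    rw [zero_pow hℓp.ne_zero] at hδ
    exact (_root_.map_ne_zero _).2 (div_ne_zero hd0 hlck0) hδ.symm
  set P := f.map (algebraMap k (algebraicClosure k Ω)) with hP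
  have hlc0 : algebraMap k (algebraicClosure k Ω) f.leadingCoeff ≠ 0 :=
    (_root_.map_ne_zero _).2 hlck0
  have hPsep : P.Separable := hsep.map
  have hP0 : P ≠ 0 := hPsep.ne_zero
  have hnd : P.roots.Nodup := nodup_roots hPsep
  have hPdeg : P.natDegree = f.natDegree := natDegree_map_of_leadingCoeff_ne_zero _ hlc0
  set B : Finset (algebraicClosure k Ω) := P.roots.toFinset with hBdef
  have hmemB : ∀ θ, θ ∈ B ↔ aeval θ f = 0 := by
    intro θ
    rw [hBdef, Multiset.mem_toFinset, mem_roots hP0, IsRoot.def, hP, eval_map]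
    rfl
  have hcard : B.card = f.natDegree := by
    rw [hBdef, Multiset.toFinset_card_of_nodup hnd, ← hPdeg]
    exact (IsAlgClosed.splits P).natDegree_eq_card_roots.symm
  have hPx : ∀ z : Ω, P.eval₂ (algebraMap (algebraicClosure k Ω) Ω) z =
      algebraMap (algebraicClosure k Ω) Ω (algebraMap k (algebraicClosure k Ω) f.leadingCoeff) *
        ∏ e ∈ B, (z - algebraMap (algebraicClosure k Ω) Ω e) := by
    intro z
    have h1 := (IsAlgClosed.splits P).eq_prod_roots
    have h5 : P.leadingCoeff = algebraMap k (algebraicClosure k Ω) f.leadingCoeff :=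
      leadingCoeff_map_of_leadingCoeff_ne_zero _ hlc0
    rw [h5] at h1
    have h6 : ∏ e ∈ B, (z - algebraMap (algebraicClosure k Ω) Ω e) =
        (P.roots.map fun e => z - algebraMap (algebraicClosure k Ω) Ω e).prod := by
      rw [hBdef, Finset.prod, Multiset.toFinset_val, Multiset.dedup_eq_self.2 hnd]
    rw [h6]
    conv_lhs => rw [h1]
    rw [eval₂_mul, eval₂_C, ← coe_eval₂RingHom, map_multiset_prod, Multiset.map_map]
    congr 2
    refine Multiset.map_congr rfl fun a _ => ?_
    simp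
  have hfx : algebraMap F Ω (aeval x f) =
      P.eval₂ (algebraMap (algebraicClosure k Ω) Ω) (algebraMap F Ω x) := by
    rw [aeval_def, hom_eval₂, hP, eval₂_map, ← IsScalarTower.algebraMap_eq k F Ω,
      ← IsScalarTower.algebraMap_eq k (algebraicClosure k Ω) Ω]
  set Y0 : Ω := (δ : Ω) * algebraMap F Ω y with hY0
  have hY : Y0 ^ ℓ = ∏ e ∈ B, (algebraMap F Ω x - algebraMap (algebraicClosure k Ω) Ω e) := by
    have h1 := congrArg (algebraMap F Ω) hxy
    rw [map_mul, map_pow, ← IsScalarTower.algebraMap_apply, hfx, hPx] at h1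
    have h5 : algebraMap (algebraicClosure k Ω) Ω
        (algebraMap k (algebraicClosure k Ω) f.leadingCoeff) ≠ 0 := (_root_.map_ne_zero _).2 hlc0
    have h6 : (δ : Ω) ^ ℓ = algebraMap k Ω d / algebraMap (algebraicClosure k Ω) Ω
        (algebraMap k (algebraicClosure k Ω) f.leadingCoeff) := by
      have h7 := congrArg (algebraMap (algebraicClosure k Ω) Ω) hδ
      rw [map_pow, map_div₀, map_div₀, ← IsScalarTower.algebraMap_apply] at h7
      exact h7
    rw [hY0, mul_pow, h6, div_mul_eq_mul_div, h1, mul_div_cancel_left₀ _ h5]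
  have hX0 : Transcendental k (algebraMap F Ω x) :=
    (transcendental_algebraMap_iff (R := k) (algebraMap F Ω).injective (a := x)).2 hx
  have hrat := ratF_adj (trans_up hX0)
  have hYR : Y0 ^ ℓ ∈ IntermediateField.adjoin (algebraicClosure k Ω) {algebraMap F Ω x} := by
    rw [hY]
    exact prod_mem fun e _ => sub_mem (IntermediateField.mem_adjoin_simple_self _ _)
      (IntermediateField.algebraMap_mem _ e)
  have hclR := closure_R hF δ hδ0 hℓp.pos hYR
  exact rtsI (R := IntermediateField.adjoin (algebraicClosure k Ω) {algebraMap F Ω x}) hCOV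
    ⟨algebraMap F Ω x, IntermediateField.mem_adjoin_simple_self _ _⟩ hrat B
    (by rw [hcard]; exact hdvd) (by rw [hcard]; exact h3) Y0 hY (geomPro ℓ k F Ω)
    (fun z => maxPro_geom ℓ k hF δ hδ0 z) ((hmemB e).2 he) ((hmemB e').2 he')

end main

end Pool.Agent.Y574.PS
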